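import Pool.Agent.W605.SN.Norm

/-! # Task 1, assembly -/

set_option autoImplicit false

namespace Pool.Agent.W605.SN

open Pool.Agent.W31.SN NumberField

theorem mem_adjoin {K : Type} [Field K] (ζ : K) (ε : ℤ) (h : ζ ^ 2 + ε * ζ + 1 = 0) (x : K)
    (hx : x ∈ Algebra.adjoin ℤ ({ζ} : Set K)) : ∃ m n : ℤ, x = m + n * ζ := by
  induction hx using Algebra.adjoin_induction with
  | mem x hx =>
    rw [Set.mem_singleton_iff] at hx
    exact ⟨0, 1, by rw [hx]; simp⟩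
  | algebraMap r => exact ⟨r, 0, by simp⟩
  | add x y _ _ hx hy =>
    obtain ⟨m, n, rfl⟩ := hx
    obtain ⟨m', n', rfl⟩ := hy
    exact ⟨m + m', n + n', by push_cast; ring⟩
  | mul x y _ _ hx hy =>
    obtain ⟨m, n, rfl⟩ := hx
    obtain ⟨m', n', rfl⟩ := hy
    refine ⟨m * m' - n * n', m * n' + n * m' - ε * n * n', ?_⟩
    push_cast
    linear_combination (n : K) * n' * h

theorem mod_of {K : Type} [Field K] [NumberField K] (ζ : K) (ε : ℤ) (he : ε = 0 ∨ ε = 1)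
    (h : ζ ^ 2 + ε * ζ + 1 = 0) (hint : IsIntegral ℤ ζ)
    (hcl : IsIntegralClosure (Algebra.adjoin ℤ ({ζ} : Set K)) ℤ K) :
    ∃ (σ : 𝓞 K →+* ℂ) (z : 𝓞 K), Mod σ z ε := by
  obtain ⟨φ⟩ : Nonempty (K →+* ℂ) := inferInstance
  obtain ⟨z, hz⟩ : ∃ z : 𝓞 K, algebraMap (𝓞 K) K z = ζ := ⟨⟨ζ, hint⟩, rfl⟩
  refine ⟨φ.comp (algebraMap (𝓞 K) K), z, ?_⟩
  have hinj : Function.Injective (algebraMap (𝓞 K) K) := RingOfIntegers.coe_injective
  refine ⟨φ.injective.comp hinj, ?_, ?_, he⟩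
  · apply hinj
    rw [map_add, map_add, map_mul, map_pow, map_intCast, map_one, map_zero, hz]
    exact h
  · intro x
    obtain ⟨y, hy⟩ := hcl.isIntegral_iff.1 x.2
    obtain ⟨m, n, hmn⟩ := mem_adjoin ζ ε h y y.2
    refine ⟨m, n, hinj ?_⟩
    have h1 : (x : K) = m + n * ζ := by
      rw [← hmn]
      exact hy.symm
    rw [map_add, map_mul, map_intCast, map_intCast, hz]
    exact h1

theorem done : Task1 := by
  intro K _ _ hK
  have key : ∃ (σ : 𝓞 K →+* ℂ) (z : 𝓞 K) (ε : ℤ), Mod σ z ε := by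
    rcases hK with he | he
    · obtain ⟨e⟩ := he
      have : NeZero ((4 : ℕ) : ℚ) := ⟨by norm_num⟩
      have hc0 : IsCyclotomicExtension {4} ℚ (CyclotomicField 4 ℚ) := by
        convert CyclotomicField.isCyclotomicExtension 4 ℚ using 1
        · rfl
        · exact Subsingleton.elim _ _
      have e' : CyclotomicField 4 ℚ ≃ₐ[ℚ] K := AlgEquiv.ofRingEquiv (f := e.symm) (fun r => by simp)
      have hcyc : IsCyclotomicExtension {4} ℚ K := IsCyclotomicExtension.equiv {4} ℚ _ e'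
      have hcyc2 : IsCyclotomicExtension {2 ^ 2} ℚ K := by
        rw [show 2 ^ 2 = 4 by norm_num]
        exact hcyc
      have : Fact (Nat.Prime 2) := ⟨Nat.prime_two⟩
      have hζ : IsPrimitiveRoot (IsCyclotomicExtension.zeta 4 ℚ K) (2 ^ 2) := by
        have := IsCyclotomicExtension.zeta_spec 4 ℚ K
        rwa [show 2 ^ 2 = 4 by norm_num]
      obtain ⟨ζ, hζe⟩ : ∃ ζ, ζ = IsCyclotomicExtension.zeta 4 ℚ K := ⟨_, rfl⟩
      rw [← hζe] at hζ
      have hcl := IsCyclotomicExtension.Rat.isIntegralClosure_adjoin_singleton_of_prime_pow hζ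
      have hint : IsIntegral ℤ ζ := hζ.isIntegral (by norm_num)
      have hroot : ζ ^ 2 + ((0 : ℤ) : K) * ζ + 1 = 0 := by
        have h4 : ζ ^ 4 = 1 := by
          have := hζ.pow_eq_one
          rwa [show 2 ^ 2 = 4 by norm_num] at this
        have h2 : ζ ^ 2 ≠ 1 := hζ.pow_ne_one_of_pos_of_lt (by norm_num) (by norm_num)
        have h3 : (ζ ^ 2 - 1) * (ζ ^ 2 + 1) = 0 := by linear_combination h4
        have h5 := (mul_eq_zero.1 h3).resolve_left (sub_ne_zero.2 h2)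
        simpa using h5
      obtain ⟨σ, z, H⟩ := mod_of ζ 0 (Or.inl rfl) hroot hint hcl
      exact ⟨σ, z, 0, H⟩
    · obtain ⟨e⟩ := he
      have : NeZero ((3 : ℕ) : ℚ) := ⟨by norm_num⟩
      have hc0 : IsCyclotomicExtension {3} ℚ (CyclotomicField 3 ℚ) := by
        convert CyclotomicField.isCyclotomicExtension 3 ℚ using 1
        · rfl
        · exact Subsingleton.elim _ _
      have e' : CyclotomicField 3 ℚ ≃ₐ[ℚ] K := AlgEquiv.ofRingEquiv (f := e.symm) (fun r => by simp)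
      have hcyc : IsCyclotomicExtension {3} ℚ K := IsCyclotomicExtension.equiv {3} ℚ _ e'
      have : Fact (Nat.Prime 3) := ⟨Nat.prime_three⟩
      have hζ : IsPrimitiveRoot (IsCyclotomicExtension.zeta 3 ℚ K) 3 :=
        IsCyclotomicExtension.zeta_spec 3 ℚ K
      obtain ⟨ζ, hζe⟩ : ∃ ζ, ζ = IsCyclotomicExtension.zeta 3 ℚ K := ⟨_, rfl⟩
      rw [← hζe] at hζ
      have hcl := IsCyclotomicExtension.Rat.isIntegralClosure_adjoin_singleton_of_prime hζ
      have hint : IsIntegral ℤ ζ := hζ.isIntegral (by norm_num)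
      have hroot : ζ ^ 2 + ((1 : ℤ) : K) * ζ + 1 = 0 := by
        have h4 : ζ ^ 3 = 1 := hζ.pow_eq_one
        have h2 : ζ ≠ 1 := hζ.ne_one (by norm_num)
        have h3 : (ζ - 1) * (ζ ^ 2 + ζ + 1) = 0 := by linear_combination h4
        have h5 := (mul_eq_zero.1 h3).resolve_left (sub_ne_zero.2 h2)
        simpa using h5
      obtain ⟨σ, z, H⟩ := mod_of ζ 1 (Or.inr rfl) hroot hint hcl
      exact ⟨σ, z, 1, H⟩
  obtain ⟨σ, z, ε, H⟩ := key
  obtain ⟨N, hN⟩ := norm_ok H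
  exact ⟨pid N hN, N, hN⟩

end Pool.Agent.W605.SN
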