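import Pool.Agent.W605.SN.Tri

/-! # Task 1, second part: the norm -/

set_option autoImplicit false

namespace Pool.Agent.W605.SN

open Pool.Agent.W31.SN Complex

/-- `R = ℤ + ℤ z`, `z ^ 2 + ε z + 1 = 0`, `ε = 0` or `1`, with a complex embedding. -/
structure Mod {R : Type} [CommRing R] (σ : R →+* ℂ) (z : R) (ε : ℤ) : Prop where
  inj : Function.Injective σ
  root : z ^ 2 + ε * z + 1 = 0
  gen : ∀ x : R, ∃ m n : ℤ, x = m + n * z
  eps : ε = 0 ∨ ε = 1

section

variable {R : Type} [CommRing R] {σ : R →+* ℂ} {z : R} {ε : ℤ} (H : Mod σ z ε)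

include H

theorem tau_root : (σ z) ^ 2 + (ε : ℂ) * σ z + 1 = 0 := by
  have := congrArg σ H.root
  simpa using this

theorem tau_im : (σ z).im ≠ 0 ∧ 2 * (σ z).re = -ε ∧ (σ z).re ^ 2 + (σ z).im ^ 2 = 1 := by
  have h := tau_root H
  have hre := congrArg Complex.re h
  have him := congrArg Complex.im h
  simp [sq] at hre him
  obtain ⟨s, hs⟩ : ∃ s, s = (σ z).re := ⟨_, rfl⟩
  obtain ⟨t, ht⟩ : ∃ t, t = (σ z).im := ⟨_, rfl⟩
  rw [← hs, ← ht] at hre him ⊢
  have heps : (ε : ℝ) = 0 ∨ (ε : ℝ) = 1 := by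
    rcases H.eps with h | h
    · left; exact_mod_cast h
    · right; exact_mod_cast h
  have ht0 : t ≠ 0 := by
    intro h0
    rw [h0] at hre
    rcases heps with h | h
    · rw [h] at hre; nlinarith
    · rw [h] at hre; nlinarith [sq_nonneg (s + 1 / 2)]
  have h2 : 2 * s + ε = 0 := by
    have : t * (2 * s + ε) = 0 := by linarith
    exact (mul_eq_zero.1 this).resolve_left ht0
  refine ⟨ht0, by linarith, ?_⟩
  have : (ε : ℝ) = -2 * s := by linarith
  rw [this] at hre
  nlinarith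

theorem normSq_eq (x y : ℝ) : normSq (x + y * σ z) = x ^ 2 - ε * x * y + y ^ 2 := by
  obtain ⟨-, h2, h3⟩ := tau_im H
  rw [normSq_apply]
  simp
  have : (ε : ℝ) = -2 * (σ z).re := by linarith
  rw [this]
  linear_combination y ^ 2 * h3

theorem normSq_int (m n : ℤ) :
    normSq (σ (m + n * z)) = ((m ^ 2 - ε * m * n + n ^ 2 : ℤ) : ℝ) := by
  have := normSq_eq H (m : ℝ) (n : ℝ)
  push_cast at this ⊢
  rw [← this]
  congr 1
  simp

theorem coords (w : ℂ) : ∃ x y : ℝ, w = x + y * σ z := by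
  obtain ⟨h1, -, -⟩ := tau_im H
  refine ⟨w.re - w.im / (σ z).im * (σ z).re, w.im / (σ z).im, ?_⟩
  apply Complex.ext
  · simp
  · simp
    field_simp

theorem exists_N : ∃ N : R → ℕ, ∀ x, (N x : ℝ) = normSq (σ x) := by
  have : ∀ x : R, ∃ k : ℕ, (k : ℝ) = normSq (σ x) := by
    intro x
    obtain ⟨m, n, rfl⟩ := H.gen x
    have h1 := normSq_int H m n
    have h2 : 0 ≤ m ^ 2 - ε * m * n + n ^ 2 := by
      have := normSq_nonneg (σ (m + n * z))
      rw [h1] at this
      exact_mod_cast this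
    refine ⟨(m ^ 2 - ε * m * n + n ^ 2).toNat, ?_⟩
    rw [h1]
    have h3 := Int.toNat_of_nonneg h2
    exact_mod_cast congrArg (fun i : ℤ => (i : ℝ)) h3
  choose N hN using this
  exact ⟨N, hN⟩

theorem unit_of_norm_one (m n : ℤ) (h : m ^ 2 - ε * m * n + n ^ 2 = 1) :
    IsUnit ((m : R) + n * z) := by
  refine IsUnit.of_mul_eq_one (((m - ε * n : ℤ) : R) - n * z) ?_
  have h1 : ((m ^ 2 - ε * m * n + n ^ 2 : ℤ) : R) = 1 := by rw [h]; simp
  push_cast at h1 ⊢
  have h2 := H.root
  linear_combination h1 - (n : R) ^ 2 * h2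

omit H in
theorem two_units_aux (ε : ℤ) (he : ε = 0 ∨ ε = 1) : ∀ m n : ℤ,
    (m ^ 2 - ε * m * n + n ^ 2 = 2 ∨ m ^ 2 - ε * m * n + n ^ 2 = 3) →
    ∃ m1 n1 : ℤ, m1 ^ 2 - ε * m1 * n1 + n1 ^ 2 = 1 ∧
      (m - m1) ^ 2 - ε * (m - m1) * (n - n1) + (n - n1) ^ 2 = 1 := by
  intro m n h
  have hm : -2 ≤ m ∧ m ≤ 2 := by
    rcases he with rfl | rfl
    · constructor <;> rcases h with h | h <;> nlinarith [sq_nonneg n]
    · constructor <;> rcases h with h | h <;> nlinarith [sq_nonneg (2 * n - m)]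
  have hn : -2 ≤ n ∧ n ≤ 2 := by
    rcases he with rfl | rfl
    · constructor <;> rcases h with h | h <;> nlinarith [sq_nonneg m]
    · constructor <;> rcases h with h | h <;> nlinarith [sq_nonneg (2 * m - n)]
  have key : ∀ m ∈ Finset.Icc (-2 : ℤ) 2, ∀ n ∈ Finset.Icc (-2 : ℤ) 2, ∀ ε ∈ Finset.Icc (0 : ℤ) 1,
      (m ^ 2 - ε * m * n + n ^ 2 = 2 ∨ m ^ 2 - ε * m * n + n ^ 2 = 3) →
      ∃ m1 ∈ Finset.Icc (-2 : ℤ) 2, ∃ n1 ∈ Finset.Icc (-2 : ℤ) 2,
        m1 ^ 2 - ε * m1 * n1 + n1 ^ 2 = 1 ∧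
        (m - m1) ^ 2 - ε * (m - m1) * (n - n1) + (n - n1) ^ 2 = 1 := by decide +kernel
  obtain ⟨m1, -, n1, -, h1, h2⟩ := key m (Finset.mem_Icc.2 hm) n (Finset.mem_Icc.2 hn) ε
    (Finset.mem_Icc.2 (by rcases he with rfl | rfl <;> norm_num)) h
  exact ⟨m1, n1, h1, h2⟩

theorem norm_ok : ∃ N : R → ℕ, NormOk R N := by
  obtain ⟨N, hN⟩ := exists_N H
  have hpos : ∀ k : R, k ≠ 0 → 0 < (N k : ℝ) := by
    intro k hk
    rw [hN k, normSq_pos]
    intro h0
    exact hk (H.inj (by rw [h0, map_zero]))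
  have hmul : ∀ a b : R, N (a * b) = N a * N b := by
    intro a b
    have : (N (a * b) : ℝ) = N a * N b := by rw [hN, hN, hN, map_mul, normSq_mul]
    exact_mod_cast this
  have hzero : ∀ a, N a = 0 ↔ a = 0 := by
    intro a
    constructor
    · intro h
      by_contra h0
      have := hpos a h0
      rw [h] at this
      simp at this
    · rintro rfl
      have : (N (0 : R) : ℝ) = 0 := by rw [hN, map_zero, normSq_zero]
      exact_mod_cast this
  have hone : N 1 = 1 := by
    have : (N (1 : R) : ℝ) = 1 := by rw [hN, map_one, normSq_one]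
    exact_mod_cast this
  have hunit : ∀ u : Rˣ, N u = 1 := by
    intro u
    have h1 : N (u : R) * N ((u⁻¹ : Rˣ) : R) = 1 := by
      rw [← hmul, Units.mul_inv, hone]
    exact Nat.eq_one_of_mul_eq_one_right h1
  -- the norm of a difference in coordinates
  have hdiff : ∀ (a k : R), k ≠ 0 → ∃ x y : ℝ, σ a = (x + y * σ z) * σ k := by
    intro a k hk
    have hk0 : σ k ≠ 0 := fun h0 => hk (H.inj (by rw [h0, map_zero]))
    obtain ⟨x, y, hxy⟩ := coords H (σ a / σ k)
    refine ⟨x, y, ?_⟩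
    rw [← hxy, div_mul_cancel₀ _ hk0]
  refine ⟨N, ⟨hzero, fun u a => by rw [hmul, hunit, one_mul], ?_, ?_⟩⟩
  · -- conn
    intro k a a' hk ha ha' hdvd
    obtain ⟨c, hc⟩ := hdvd
    have hc' : a' = a - c * k := by linear_combination -hc
    have hkp := hpos k hk
    have haR : (N a : ℝ) ≤ N k := by exact_mod_cast ha
    have haR' : (N a' : ℝ) < N k := by exact_mod_cast ha'
    obtain ⟨m, n, hmn⟩ := H.gen c
    have hNc : (N c : ℝ) = ((m ^ 2 - ε * m * n + n ^ 2 : ℤ) : ℝ) := by
      rw [hN, hmn, normSq_int H]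
    have hNc' : ((N c : ℕ) : ℤ) = m ^ 2 - ε * m * n + n ^ 2 := by exact_mod_cast hNc
    have hNcb : N c < 4 := by
      have h1 : (N c : ℝ) * N k = normSq (σ a - σ a') := by
        rw [← Nat.cast_mul, ← hmul, hN, mul_comm c k, ← hc, map_sub]
      have h2 : normSq (σ a - σ a') ≤ 2 * (normSq (σ a) + normSq (σ a')) := by
        simp only [normSq_apply, sub_re, sub_im]
        nlinarith [sq_nonneg ((σ a).re + (σ a').re), sq_nonneg ((σ a).im + (σ a').im)]
      rw [← hN, ← hN] at h2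
      have h3 : (N c : ℝ) * N k < 4 * N k := by linarith
      have h4 : (N c : ℝ) < 4 := lt_of_mul_lt_mul_right h3 hkp.le
      exact_mod_cast h4
    have hcases : N c = 0 ∨ N c = 1 ∨ N c = 2 ∨ N c = 3 := by omega
    rcases hcases with h0 | h1 | h23
    · have : c = 0 := (hzero c).1 h0
      rw [hc', this, zero_mul, sub_zero]
    · have hu : IsUnit c := by
        rw [hmn]
        refine unit_of_norm_one H m n ?_
        rw [← hNc', h1]
        rfl
      obtain ⟨u, hu⟩ := hu
      refine Relation.ReflTransGen.single ⟨ha', u, ?_⟩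
      rw [hc', hu]
    · have h2 : 2 ≤ N c := by omega
      obtain ⟨m1, n1, e1, e2⟩ := two_units_aux ε H.eps m n (by
        rw [← hNc']
        rcases h23 with h | h
        · left; rw [h]; rfl
        · right; rw [h]; rfl)
      obtain ⟨u, hu⟩ := unit_of_norm_one H m1 n1 e1
      obtain ⟨u', hu'⟩ := unit_of_norm_one H (m - m1) (n - n1) e2
      have hsum : c = u + u' := by
        rw [hu, hu', hmn]
        push_cast
        ring
      -- parallelogram identity
      have hpar : (N (a - u * k) : ℝ) + N (a - u' * k) = N a + N a' + (2 - N c) * N k := by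
        have hu1 : normSq (σ u) = 1 := by rw [← hN, hunit]; simp
        have hu2 : normSq (σ u') = 1 := by rw [← hN, hunit]; simp
        have g1 : (N c : ℝ) * N k = normSq ((σ u + σ u') * σ k) := by
          rw [← Nat.cast_mul, ← hmul, hN, map_mul, hsum, map_add]
        have g2 : (N a' : ℝ) = normSq (σ a - (σ u + σ u') * σ k) := by
          rw [hN, hc', hsum]; simp
        have g3 : (N (a - u * k) : ℝ) = normSq (σ a - σ u * σ k) := by rw [hN]; simp
        have g4 : (N (a - u' * k) : ℝ) = normSq (σ a - σ u' * σ k) := by rw [hN]; simp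
        have g5 : (N k : ℝ) = normSq (σ u * σ k) := by rw [hN, normSq_mul, hu1, one_mul]
        have g6 : (N k : ℝ) = normSq (σ u' * σ k) := by rw [hN, normSq_mul, hu2, one_mul]
        obtain ⟨U, hU⟩ : ∃ U, U = σ u * σ k := ⟨_, rfl⟩
        obtain ⟨U', hU'⟩ : ∃ U', U' = σ u' * σ k := ⟨_, rfl⟩
        rw [add_mul, ← hU, ← hU'] at g1 g2
        rw [← hU] at g3 g5
        rw [← hU'] at g4 g6
        have g7 : (N a : ℝ) = normSq (σ a) := hN a
        have g8 : (2 - (N c : ℝ)) * N k = normSq U + normSq U' - normSq (U + U') := by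
          rw [sub_mul, g1, two_mul]
          nth_rewrite 1 [g5]
          rw [g6]
        rw [g3, g4, g7, g2, g8]
        simp only [normSq_apply, sub_re, sub_im, add_re, add_im]
        ring
      have hc2 : (2 : ℝ) ≤ N c := by exact_mod_cast h2
      have hbound : (N (a - u * k) : ℝ) + N (a - u' * k) < 2 * N k := by
        rw [hpar]
        nlinarith
      have hstep : ∀ v v' : Rˣ, c = v + v' → (N (a - v * k) : ℝ) < N k →
          Relation.ReflTransGen (Step N k) a a' := by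
        intro v v' hv hlt
        refine Relation.ReflTransGen.head (b := a - v * k) ⟨by exact_mod_cast hlt, v, rfl⟩ ?_
        refine Relation.ReflTransGen.single ⟨ha', v', ?_⟩
        rw [hc', hv]
        ring
      rcases lt_or_ge (N (a - u * k) : ℝ) (N k) with hlt | hge
      · exact hstep u u' hsum hlt
      · exact hstep u' u (by rw [hsum]; ring) (by linarith)
  · -- tri
    intro k a b hk
    have hkp := hpos k hk
    obtain ⟨x, y, hxy⟩ := hdiff a k hk
    obtain ⟨x', y', hxy'⟩ := hdiff b k hk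
    have hNe : ∀ (w : R) (X Y : ℝ), σ w = (X + Y * σ z) * σ k → X ^ 2 - ε * X * Y + Y ^ 2 < 1 →
        N w < N k := by
      intro w X Y hw hlt
      have h1 : (N w : ℝ) = (X ^ 2 - ε * X * Y + Y ^ 2) * N k := by
        rw [hN, hw, normSq_mul, normSq_eq H, hN]
      have h2 : (N w : ℝ) < N k := by
        rw [h1]
        nlinarith
      exact_mod_cast h2
    have hmain : ∃ m n m' n' : ℤ,
        (x - m) ^ 2 - ε * (x - m) * (y - n) + (y - n) ^ 2 < 1 ∧
        (x' - m') ^ 2 - ε * (x' - m') * (y' - n') + (y' - n') ^ 2 < 1 ∧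
        (x - m + (x' - m')) ^ 2 - ε * (x - m + (x' - m')) * (y - n + (y' - n')) +
          (y - n + (y' - n')) ^ 2 < 1 := by
      rcases H.eps with h | h
      · obtain ⟨m, n, m', n', e1, e2, e3⟩ := triG x y x' y'
        refine ⟨m, n, m', n', ?_, ?_, ?_⟩ <;> rw [h] <;> push_cast <;>
          simp only [zero_mul, sub_zero] <;> assumption
      · obtain ⟨m, n, m', n', e1, e2, e3⟩ := triE x y x' y'
        refine ⟨m, n, m', n', ?_, ?_, ?_⟩ <;> rw [h] <;> push_cast <;>
          simp only [one_mul] <;> assumption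
    obtain ⟨m, n, m', n', e1, e2, e3⟩ := hmain
    refine ⟨m + n * z, m' + n' * z, hNe _ (x - m) (y - n) ?_ e1, hNe _ (x' - m') (y' - n') ?_ e2,
      hNe _ (x - m + (x' - m')) (y - n + (y' - n')) ?_ e3⟩
    · rw [map_sub, hxy]
      simp
      ring
    · rw [map_sub, hxy']
      simp
      ring
    · rw [map_add, map_sub, map_sub, hxy, hxy']
      simp
      ring

end

theorem pid {R : Type} [CommRing R] (N : R → ℕ) (hN : NormOk R N) : IsPrincipalIdealRing R := by
  classical
  refine ⟨fun I => ?_⟩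
  by_cases h : I = ⊥
  · rw [h]
    exact bot_isPrincipal
  · obtain ⟨k, ⟨hkI, hk0⟩, hmin⟩ := WellFounded.has_min (measure N).wf {x | x ∈ I ∧ x ≠ 0} (by
      obtain ⟨x, hx, hx0⟩ := Submodule.exists_mem_ne_zero_of_ne_bot h
      exact ⟨x, hx, hx0⟩)
    refine ⟨⟨k, ?_⟩⟩
    refine le_antisymm (fun a ha => ?_) ?_
    · obtain ⟨c, -, hc, -, -⟩ := hN.tri k a 0 hk0
      have h1 : a - c * k = 0 := by
        by_contra h0
        exact hmin (a - c * k) ⟨I.sub_mem ha (I.mul_mem_left c hkI), h0⟩ hc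
      rw [sub_eq_zero.1 h1]
      exact Submodule.smul_mem _ c (Submodule.mem_span_singleton_self k)
    · rw [Submodule.span_le, Set.singleton_subset_iff]
      exact hkI

end Pool.Agent.W605.SN
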