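import Pool.Agent.W31.SN.Defs

/-! # Task 1: the norm of the Gaussian and the Eisenstein integers -/

set_option autoImplicit false

namespace Pool.Agent.W605.SN

open Pool.Agent.W31.SN Complex

/-! ### real lemmas, Gaussian case -/

theorem round_box (x : ℝ) : ∃ m : ℤ, |x - m| ≤ 1 / 2 := ⟨round x, abs_sub_round x⟩

theorem domG (X Y X' Y' : ℝ) (hX : |X| ≤ 1 / 2) (hY : |Y| ≤ 1 / 2) (hX' : |X'| ≤ 1 / 2)
    (hY' : |Y'| ≤ 1 / 2) (h1 : 1 ≤ (X + X') ^ 2 + (Y + Y') ^ 2) (h2 : |Y + Y'| ≤ X + X') :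
    ∃ m n : ℤ, (X - m) ^ 2 + (Y - n) ^ 2 < 1 ∧ (X + X' - m) ^ 2 + (Y + Y' - n) ^ 2 < 1 := by
  rw [abs_le] at hX hY hX' hY' h2
  by_cases hc : X + X' = 1 ∧ (Y + Y') ^ 2 = 1
  · obtain ⟨hc1, hc2⟩ := hc
    have hX1 : X = 1 / 2 := by linarith
    have : (Y + Y' - 1) * (Y + Y' + 1) = 0 := by linarith
    rcases mul_eq_zero.1 this with h | h
    · have hY1 : Y = 1 / 2 := by linarith
      refine ⟨1, 1, ?_, ?_⟩
      · push_cast; rw [hX1, hY1]; norm_num
      · push_cast; rw [hc1, show Y + Y' = 1 by linarith]; norm_num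
    · have hY1 : Y = -1 / 2 := by linarith
      refine ⟨1, -1, ?_, ?_⟩
      · push_cast; rw [hX1, hY1]; norm_num
      · push_cast; rw [hc1, show Y + Y' = -1 by linarith]; norm_num
  · obtain ⟨x, hx⟩ : ∃ x, x = X + X' := ⟨_, rfl⟩
    obtain ⟨y, hy⟩ : ∃ y, y = Y + Y' := ⟨_, rfl⟩
    rw [← hx, ← hy] at hc h1 h2 ⊢
    have hx1 : x ≤ 1 := by linarith
    have hx0 : 0 ≤ x := by linarith
    have hyx : y ^ 2 ≤ x ^ 2 := by nlinarith
    have hxl : 7 / 10 ≤ x := by nlinarith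
    refine ⟨1, 0, ?_, ?_⟩
    · push_cast
      have h3 : 1 / 5 ≤ X := by linarith
      nlinarith
    · push_cast
      rcases lt_or_eq_of_le hx1 with h | h
      · nlinarith
      · have hy1 : y ^ 2 ≠ 1 := fun h' => hc ⟨h, h'⟩
        have hy2 : y ^ 2 ≤ 1 := by rw [h] at hyx; linarith
        have hy3 : y ^ 2 < 1 := lt_of_le_of_ne hy2 hy1
        rw [h]
        linarith

theorem triG0 (X Y X' Y' : ℝ) (hX : |X| ≤ 1 / 2) (hY : |Y| ≤ 1 / 2) (hX' : |X'| ≤ 1 / 2)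
    (hY' : |Y'| ≤ 1 / 2) :
    ∃ m n : ℤ, (X - m) ^ 2 + (Y - n) ^ 2 < 1 ∧ (X + X' - m) ^ 2 + (Y + Y' - n) ^ 2 < 1 := by
  by_cases h1 : 1 ≤ (X + X') ^ 2 + (Y + Y') ^ 2
  · rcases le_total (|Y + Y'|) (|X + X'|) with h | h
    · rcases le_total 0 (X + X') with h' | h'
      · rw [abs_of_nonneg h'] at h
        exact domG X Y X' Y' hX hY hX' hY' h1 h
      · rw [abs_of_nonpos h'] at h
        obtain ⟨m, n, e1, e2⟩ := domG (-X) Y (-X') Y' (by rwa [abs_neg]) hY (by rwa [abs_neg]) hY'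
          (by nlinarith) (by linarith)
        refine ⟨-m, n, ?_, ?_⟩
        · push_cast; nlinarith
        · push_cast; nlinarith
    · rcases le_total 0 (Y + Y') with h' | h'
      · rw [abs_of_nonneg h'] at h
        obtain ⟨m, n, e1, e2⟩ := domG Y X Y' X' hY hX hY' hX' (by linarith) h
        exact ⟨n, m, by linarith, by linarith⟩
      · rw [abs_of_nonpos h'] at h
        obtain ⟨m, n, e1, e2⟩ := domG (-Y) X (-Y') X' (by rwa [abs_neg]) hX (by rwa [abs_neg]) hX'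
          (by nlinarith) (by linarith)
        refine ⟨n, -m, ?_, ?_⟩
        · push_cast; nlinarith
        · push_cast; nlinarith
  · push Not at h1
    refine ⟨0, 0, ?_, ?_⟩
    · push_cast
      rw [abs_le] at hX hY
      nlinarith
    · push_cast
      linarith

theorem triG (x y x' y' : ℝ) : ∃ m n m' n' : ℤ, (x - m) ^ 2 + (y - n) ^ 2 < 1 ∧
    (x' - m') ^ 2 + (y' - n') ^ 2 < 1 ∧
    (x - m + (x' - m')) ^ 2 + (y - n + (y' - n')) ^ 2 < 1 := by
  obtain ⟨a, ha⟩ := round_box x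
  obtain ⟨b, hb⟩ := round_box y
  obtain ⟨a', ha'⟩ := round_box x'
  obtain ⟨b', hb'⟩ := round_box y'
  obtain ⟨m, n, e1, e2⟩ := triG0 _ _ _ _ ha hb ha' hb'
  refine ⟨a + m, b + n, a', b', ?_, ?_, ?_⟩
  · push_cast
    have : (x - (a + m)) ^ 2 + (y - (b + n)) ^ 2 = (x - a - m) ^ 2 + (y - b - n) ^ 2 := by ring
    linarith
  · rw [abs_le] at ha' hb'
    nlinarith
  · push_cast
    have : (x - (a + m) + (x' - a')) ^ 2 + (y - (b + n) + (y' - b')) ^ 2 =
      (x - a + (x' - a') - m) ^ 2 + (y - b + (y' - b') - n) ^ 2 := by ring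
    linarith

/-! ### real lemmas, Eisenstein case -/

theorem redE0 (s t : ℝ) (hs : 0 ≤ s) (ht : 0 ≤ t) (hs2 : s ≤ 1 / 2) (hts : t ≤ s) :
    s ^ 2 + s * t + t ^ 2 ≤ 1 / 3 ∨ (1 - s) ^ 2 - (1 - s) * t + t ^ 2 ≤ 1 / 3 := by
  rcases le_total (2 * s + t) 1 with h | h
  · left
    nlinarith [mul_nonneg hs ht, mul_nonneg ht (sub_nonneg.2 hts), mul_nonneg hs (sub_nonneg.2 hts),
      mul_nonneg ht (sub_nonneg.2 h), mul_nonneg hs (sub_nonneg.2 h),
      mul_nonneg (sub_nonneg.2 hts) (sub_nonneg.2 h)]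
  · right
    nlinarith [mul_nonneg (sub_nonneg.2 hs2) ht, mul_nonneg (sub_nonneg.2 hs2) (sub_nonneg.2 hts),
      mul_nonneg (sub_nonneg.2 hts) (sub_nonneg.2 h), mul_nonneg (sub_nonneg.2 hs2) (sub_nonneg.2 h),
      mul_nonneg ht (sub_nonneg.2 hts)]

theorem redE (x y : ℝ) : ∃ m n : ℤ, (x - m) ^ 2 - (x - m) * (y - n) + (y - n) ^ 2 ≤ 1 / 3 := by
  obtain ⟨a, ha⟩ := round_box x
  obtain ⟨b, hb⟩ := round_box y
  obtain ⟨X, hX⟩ : ∃ X, X = x - a := ⟨_, rfl⟩
  obtain ⟨Y, hY⟩ : ∃ Y, Y = y - b := ⟨_, rfl⟩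
  rw [← hX] at ha
  rw [← hY] at hb
  suffices h : ∃ m n : ℤ, (X - m) ^ 2 - (X - m) * (Y - n) + (Y - n) ^ 2 ≤ 1 / 3 by
    obtain ⟨m, n, h⟩ := h
    refine ⟨a + m, b + n, ?_⟩
    rw [hX, hY] at h
    push_cast
    have : (x - (a + m)) ^ 2 - (x - (a + m)) * (y - (b + n)) + (y - (b + n)) ^ 2 =
      (x - a - m) ^ 2 - (x - a - m) * (y - b - n) + (y - b - n) ^ 2 := by ring
    linarith
  rw [abs_le] at ha hb
  rcases le_total 0 X with hX0 | hX0 <;> rcases le_total 0 Y with hY0 | hY0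
  · refine ⟨0, 0, ?_⟩
    push_cast
    rcases le_total X Y with h | h <;> nlinarith
  · rcases le_total (-Y) X with h | h
    · rcases redE0 X (-Y) hX0 (by linarith) (by linarith) h with h' | h'
      · refine ⟨0, 0, ?_⟩
        push_cast
        nlinarith
      · refine ⟨1, 0, ?_⟩
        push_cast
        nlinarith
    · rcases redE0 (-Y) X (by linarith) hX0 (by linarith) h with h' | h'
      · refine ⟨0, 0, ?_⟩
        push_cast
        nlinarith
      · refine ⟨0, -1, ?_⟩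
        push_cast
        nlinarith
  · rcases le_total Y (-X) with h | h
    · rcases redE0 (-X) Y (by linarith) hY0 (by linarith) h with h' | h'
      · refine ⟨0, 0, ?_⟩
        push_cast
        nlinarith
      · refine ⟨-1, 0, ?_⟩
        push_cast
        nlinarith
    · rcases redE0 Y (-X) hY0 (by linarith) (by linarith) h with h' | h'
      · refine ⟨0, 0, ?_⟩
        push_cast
        nlinarith
      · refine ⟨0, 1, ?_⟩
        push_cast
        nlinarith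
  · refine ⟨0, 0, ?_⟩
    push_cast
    rcases le_total X Y with h | h <;> nlinarith

/-- the choice of the unit -/
theorem unitE (x y : ℝ) (h1 : 1 ≤ x ^ 2 - x * y + y ^ 2) (h2 : x ^ 2 - x * y + y ^ 2 ≤ 4 / 3) :
    ∃ a b : ℤ, (a : ℝ) ^ 2 - a * b + b ^ 2 = 1 ∧
      x ^ 2 - x * y + y ^ 2 < 2 * x * a - (x * b + y * a) + 2 * y * b ∧
      2 / 3 < 2 * x * a - (x * b + y * a) + 2 * y * b := by
  -- `M ≥ 0`, `3 Q ≤ M ^ 2` suffices
  have key : ∀ M : ℝ, 0 ≤ M → 3 * (x ^ 2 - x * y + y ^ 2) ≤ M ^ 2 →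
      x ^ 2 - x * y + y ^ 2 < M ∧ 2 / 3 < M := by
    intro M hM h
    constructor
    · by_contra hc
      push Not at hc
      nlinarith
    · nlinarith
  have e3 : 3 * (x ^ 2 - x * y + y ^ 2) =
      (2 * x - y) ^ 2 + (2 * x - y) * (2 * y - x) + (2 * y - x) ^ 2 := by ring
  rcases le_total 0 (2 * x - y) with hA | hA <;> rcases le_total 0 (2 * y - x) with hB | hB
  · refine ⟨1, 1, by norm_num, ?_⟩
    have := key (x + y) (by linarith) (by rw [e3]; nlinarith [mul_nonneg hA hB])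
    push_cast
    constructor <;> linarith [this.1, this.2]
  · rcases le_total (-(2 * y - x)) (2 * x - y) with h | h
    · refine ⟨1, 0, by norm_num, ?_⟩
      have := key (2 * x - y) hA (by rw [e3]; nlinarith)
      push_cast
      constructor <;> linarith [this.1, this.2]
    · refine ⟨0, -1, by norm_num, ?_⟩
      have := key (-(2 * y - x)) (by linarith) (by rw [e3]; nlinarith)
      push_cast
      constructor <;> linarith [this.1, this.2]
  · rcases le_total (2 * y - x) (-(2 * x - y)) with h | h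
    · refine ⟨-1, 0, by norm_num, ?_⟩
      have := key (-(2 * x - y)) (by linarith) (by rw [e3]; nlinarith)
      push_cast
      constructor <;> linarith [this.1, this.2]
    · refine ⟨0, 1, by norm_num, ?_⟩
      have := key (2 * y - x) hB (by rw [e3]; nlinarith)
      push_cast
      constructor <;> linarith [this.1, this.2]
  · refine ⟨-1, -1, by norm_num, ?_⟩
    have := key (-(x + y)) (by linarith) (by rw [e3]; nlinarith [mul_nonneg_of_nonpos_of_nonpos hA hB])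
    push_cast
    constructor <;> linarith [this.1, this.2]

theorem triE0 (X Y X' Y' : ℝ) (h : X ^ 2 - X * Y + Y ^ 2 ≤ 1 / 3)
    (h' : X' ^ 2 - X' * Y' + Y' ^ 2 ≤ 1 / 3) : ∃ m n m' n' : ℤ,
    (X - m) ^ 2 - (X - m) * (Y - n) + (Y - n) ^ 2 < 1 ∧
    (X' - m') ^ 2 - (X' - m') * (Y' - n') + (Y' - n') ^ 2 < 1 ∧
    (X - m + (X' - m')) ^ 2 - (X - m + (X' - m')) * (Y - n + (Y' - n')) +
      (Y - n + (Y' - n')) ^ 2 < 1 := by
  obtain ⟨x, hx⟩ : ∃ x, x = X + X' := ⟨_, rfl⟩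
  obtain ⟨y, hy⟩ : ∃ y, y = Y + Y' := ⟨_, rfl⟩
  by_cases h1 : 1 ≤ x ^ 2 - x * y + y ^ 2
  · have h2 : x ^ 2 - x * y + y ^ 2 ≤ 4 / 3 := by
      rw [hx, hy]
      have e1 : (X + X') ^ 2 - (X + X') * (Y + Y') + (Y + Y') ^ 2 +
          ((X - X') ^ 2 - (X - X') * (Y - Y') + (Y - Y') ^ 2) =
          2 * (X ^ 2 - X * Y + Y ^ 2) + 2 * (X' ^ 2 - X' * Y' + Y' ^ 2) := by ring
      have e2 : 0 ≤ (X - X') ^ 2 - (X - X') * (Y - Y') + (Y - Y') ^ 2 := by
        nlinarith [sq_nonneg ((X - X') - (Y - Y')), sq_nonneg (X - X'), sq_nonneg (Y - Y')]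
      linarith
    obtain ⟨a, b, hu, hM1, hM2⟩ := unitE x y h1 h2
    have hr : (x - a) ^ 2 - (x - a) * (y - b) + (y - b) ^ 2 < 1 := by
      have : (x - a) ^ 2 - (x - a) * (y - b) + (y - b) ^ 2 = (x ^ 2 - x * y + y ^ 2) -
        (2 * x * a - (x * b + y * a) + 2 * y * b) + ((a : ℝ) ^ 2 - a * b + b ^ 2) := by ring
      rw [this, hu]
      linarith
    have hsum : (2 * X * a - (X * b + Y * a) + 2 * Y * b) +
        (2 * X' * a - (X' * b + Y' * a) + 2 * Y' * b) =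
        2 * x * a - (x * b + y * a) + 2 * y * b := by rw [hx, hy]; ring
    rcases le_total (2 * X' * a - (X' * b + Y' * a) + 2 * Y' * b)
      (2 * X * a - (X * b + Y * a) + 2 * Y * b) with hc | hc
    · refine ⟨a, b, 0, 0, ?_, ?_, ?_⟩
      · have : (X - a) ^ 2 - (X - a) * (Y - b) + (Y - b) ^ 2 = (X ^ 2 - X * Y + Y ^ 2) -
          (2 * X * a - (X * b + Y * a) + 2 * Y * b) + ((a : ℝ) ^ 2 - a * b + b ^ 2) := by ring
        rw [this, hu]
        linarith
      · push_cast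
        simp only [sub_zero]
        linarith
      · push_cast
        rw [show X - a + (X' - 0) = x - a by rw [hx]; ring,
          show Y - b + (Y' - 0) = y - b by rw [hy]; ring]
        exact hr
    · refine ⟨0, 0, a, b, ?_, ?_, ?_⟩
      · push_cast
        simp only [sub_zero]
        linarith
      · have : (X' - a) ^ 2 - (X' - a) * (Y' - b) + (Y' - b) ^ 2 = (X' ^ 2 - X' * Y' + Y' ^ 2) -
          (2 * X' * a - (X' * b + Y' * a) + 2 * Y' * b) + ((a : ℝ) ^ 2 - a * b + b ^ 2) := by ring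
        rw [this, hu]
        linarith
      · push_cast
        rw [show X - 0 + (X' - a) = x - a by rw [hx]; ring,
          show Y - 0 + (Y' - b) = y - b by rw [hy]; ring]
        exact hr
  · push Not at h1
    refine ⟨0, 0, 0, 0, ?_, ?_, ?_⟩
    · push_cast; simp only [sub_zero]; linarith
    · push_cast; simp only [sub_zero]; linarith
    · push_cast; simp only [sub_zero]; rw [← hx, ← hy]; exact h1

theorem triE (x y x' y' : ℝ) : ∃ m n m' n' : ℤ,
    (x - m) ^ 2 - (x - m) * (y - n) + (y - n) ^ 2 < 1 ∧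
    (x' - m') ^ 2 - (x' - m') * (y' - n') + (y' - n') ^ 2 < 1 ∧
    (x - m + (x' - m')) ^ 2 - (x - m + (x' - m')) * (y - n + (y' - n')) +
      (y - n + (y' - n')) ^ 2 < 1 := by
  obtain ⟨a, b, h⟩ := redE x y
  obtain ⟨a', b', h'⟩ := redE x' y'
  obtain ⟨m, n, m', n', e1, e2, e3⟩ := triE0 _ _ _ _ h h'
  refine ⟨a + m, b + n, a' + m', b' + n', ?_, ?_, ?_⟩
  · push_cast
    rw [← sub_sub, ← sub_sub]
    exact e1
  · push_cast
    rw [← sub_sub, ← sub_sub]
    exact e2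
  · push_cast
    rw [← sub_sub, ← sub_sub, ← sub_sub, ← sub_sub]
    exact e3

end Pool.Agent.W605.SN
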